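import Pool.Agent.V8H98.AP.Comp

/-!
# Final assembly: `A_p` implies that the Hilbert transform is bounded
-/

set_option autoImplicit false

open MeasureTheory Finset Filter Topology

namespace Pool.Agent.V8H98.AP

open Pool.Agent.V8H55.HW Pool.Agent.V8H55.AP

/-- Fatou with a bound. -/
lemma fatou {g : ℕ → ℝ → ENNReal} {G : ℝ → ENNReal} {B : ENNReal} (hm : ∀ n, Measurable (g n))
    (ht : ∀ x, Tendsto (fun n => g n x) atTop (𝓝 (G x))) (hB : ∀ n, ∫⁻ x, g n x ≤ B) :
    ∫⁻ x, G x ≤ B := by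
  have h1 : ∀ x, G x = liminf (fun n => g n x) atTop := fun x => (ht x).liminf_eq.symm
  simp_rw [h1]
  refine (lintegral_liminf_le hm).trans ?_
  refine liminf_le_of_le ?_ ?_
  · exact isBounded_ge_of_bot
  · intro b hb
    obtain ⟨n, hn⟩ := hb.exists
    exact hn.trans (hB n)

lemma pow_ineq {p a b : ℝ} (hp : 1 < p) (ha : 0 ≤ a) (hb : 0 ≤ b) :
    (a + b) ^ p ≤ 2 ^ p * (a ^ p + b ^ p) := by
  have hp0 : 0 ≤ p := by linarith
  have h1 : a + b ≤ 2 * max a b := by
    have := le_max_left a b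
    have := le_max_right a b
    linarith
  have h2 : (a + b) ^ p ≤ (2 * max a b) ^ p := Real.rpow_le_rpow (by positivity) h1 hp0
  refine h2.trans ?_
  rw [Real.mul_rpow (by norm_num) (le_max_of_le_left ha)]
  refine mul_le_mul_of_nonneg_left ?_ (by positivity)
  have h3 := Real.rpow_nonneg ha p
  have h4 := Real.rpow_nonneg hb p
  rcases max_cases a b with ⟨h, _⟩ | ⟨h, _⟩
  · rw [h]; linarith
  · rw [h]; linarith

/-- The bound on a window for functions supported there. -/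
lemma window {p : ℝ} {W : ℝ → ℝ} (hp : 1 < p) (hW : IsAp p W) {K2 C1 C2 : ℝ}
    (hC1 : 0 ≤ C1) (hC2 : 0 ≤ C2) {δ : ℝ} (hδ : 0 < δ) (hpos : ∀ n, 0 < av δ W n)
    (hN : ∀ f : ℝ → ℝ, Integrable f → ∀ n : ℤ,
      ENNReal.ofReal ((av δ (fun x => |f x|) n) ^ p * (δ * av δ W n)) ≤
      ENNReal.ofReal K2 * ∫⁻ x in Set.Ico ((n : ℝ) * δ) (((n : ℝ) + 1) * δ),
        ENNReal.ofReal (|f x| ^ p * W x))
    (h1 : ∀ (U : Finset ℤ) (f : ℤ → ℝ),
      ∑ m ∈ U, |∑ n ∈ U, f n * ((m - n : ℤ) : ℝ)⁻¹| ^ p * av δ W m ≤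
        C1 * ∑ n ∈ U, |f n| ^ p * av δ W n)
    (h2 : ∀ (U : Finset ℤ) (f : ℤ → ℝ), (∀ n, 0 ≤ f n) →
      ∑ m ∈ U, (∑ n ∈ U, f n / (1 + ((m - n : ℤ) : ℝ) ^ 2)) ^ p * av δ W m ≤
        C2 * ∑ n ∈ U, f n ^ p * av δ W n)
    (h5 : Comp) {f : ℝ → ℝ} (hf : Integrable f) (N : ℕ)
    (hs : ∀ x, x ∉ Set.Ico (-((N : ℝ) * δ)) ((N : ℝ) * δ) → f x = 0) :
    ∫⁻ x in Set.Ico (-((N : ℝ) * δ)) ((N : ℝ) * δ), ENNReal.ofReal (|truncH f δ x| ^ p * W x) ≤
      ENNReal.ofReal (2 ^ p * (C1 + 4 ^ p * C2) * K2) * wInt p W f := by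
  have hp0 : 0 ≤ p := by linarith
  set U := Finset.Ico (-(N : ℤ)) N with hU
  set h : ℤ → ℝ := fun m => ∑ n ∈ U, av δ f n * ((m - n : ℤ) : ℝ)⁻¹ with hh
  set A : ℤ → ℝ := fun m => ∑ n ∈ U, av δ (fun y => |f y|) n / (1 + ((m - n : ℤ) : ℝ) ^ 2) with hA
  have hav0 : ∀ n, 0 ≤ av δ (fun y => |f y|) n := by
    intro n
    rw [av_eq hδ]
    exact mul_nonneg (inv_pos.mpr hδ).le (integral_nonneg fun x => abs_nonneg _)
  have hA0 : ∀ m, 0 ≤ A m := fun m => Finset.sum_nonneg fun n _ => div_nonneg (hav0 n) (by positivity)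
  have havle : ∀ n, |av δ f n| ≤ av δ (fun y => |f y|) n := by
    intro n
    rw [av_eq hδ, av_eq hδ, abs_mul, abs_of_pos (inv_pos.mpr hδ)]
    exact mul_le_mul_of_nonneg_left (abs_integral_le_integral_abs) (inv_pos.mpr hδ).le
  -- each cell
  have hcell : ∀ m : ℤ, ∫⁻ x in cell δ m, ENNReal.ofReal (|truncH f δ x| ^ p * W x) ≤
      ENNReal.ofReal (2 ^ p * (|h m| ^ p + (4 * A m) ^ p) * (δ * av δ W m)) := by
    intro m
    have hle : ∀ x ∈ cell δ m, ENNReal.ofReal (|truncH f δ x| ^ p * W x) ≤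
        ENNReal.ofReal (2 ^ p * (|h m| ^ p + (4 * A m) ^ p)) * ENNReal.ofReal (W x) := by
      intro x hx
      rw [← ENNReal.ofReal_mul (by have := hA0 m; positivity)]
      apply ENNReal.ofReal_le_ofReal
      refine mul_le_mul_of_nonneg_right ?_ (hW.weight.nonneg x)
      have hc : |truncH f δ x - h m| ≤ 4 * A m := h5 f δ N hf hδ hs m x hx
      have h3 : |truncH f δ x| ≤ |h m| + 4 * A m := by
        have := abs_sub_abs_le_abs_sub (truncH f δ x) (h m)
        linarith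
      exact (Real.rpow_le_rpow (abs_nonneg _) h3 hp0).trans
        (pow_ineq hp (abs_nonneg _) (by have := hA0 m; positivity))
    refine (setLIntegral_mono' (cell_meas δ m) hle).trans ?_
    rw [lintegral_const_mul _ hW.weight.meas.ennreal_ofReal]
    have e0 : ENNReal.ofReal (2 ^ p * (|h m| ^ p + (4 * A m) ^ p) * (δ * av δ W m)) =
        ENNReal.ofReal (2 ^ p * (|h m| ^ p + (4 * A m) ^ p)) * ENNReal.ofReal (δ * av δ W m) :=
      ENNReal.ofReal_mul (by have := hA0 m; positivity)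
    rw [e0]
    refine mul_le_mul' le_rfl ?_
    have hint : IntegrableOn W (cell δ m) :=
      (hW.weight.loc.integrableOn_isCompact (isCompact_Icc (a := (m : ℝ) * δ)
        (b := ((m : ℝ) + 1) * δ))).mono_set Set.Ico_subset_Icc_self
    rw [← ofReal_integral_eq_lintegral_ofReal hint
      (Filter.Eventually.of_forall fun x => hW.weight.nonneg x)]
    apply ENNReal.ofReal_le_ofReal
    rw [av_eq hδ, ← mul_assoc, mul_inv_cancel₀ hδ.ne', one_mul]
  -- the sum of the cells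
  rw [← iUnion_cell hδ N, lintegral_biUnion_finset (fun a _ b _ hab => cell_disj hδ hab)
    (fun n _ => cell_meas δ n)]
  refine (Finset.sum_le_sum fun m _ => hcell m).trans ?_
  rw [← ENNReal.ofReal_sum_of_nonneg (fun m _ => by
    have := hA0 m
    have := (hpos m).le
    positivity)]
  have hsum : ∑ m ∈ U, 2 ^ p * (|h m| ^ p + (4 * A m) ^ p) * (δ * av δ W m) ≤
      (2 ^ p * (C1 + 4 ^ p * C2)) * ∑ n ∈ U, av δ (fun y => |f y|) n ^ p * (δ * av δ W n) := by
    have e1 : ∑ m ∈ U, 2 ^ p * (|h m| ^ p + (4 * A m) ^ p) * (δ * av δ W m) =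
        2 ^ p * δ * (∑ m ∈ U, |h m| ^ p * av δ W m + 4 ^ p * ∑ m ∈ U, A m ^ p * av δ W m) := by
      rw [Finset.mul_sum, ← Finset.sum_add_distrib, Finset.mul_sum]
      refine Finset.sum_congr rfl fun m _ => ?_
      rw [Real.mul_rpow (by norm_num) (hA0 m)]
      ring
    rw [e1]
    have e2 : ∑ n ∈ U, av δ (fun y => |f y|) n ^ p * (δ * av δ W n) =
        δ * ∑ n ∈ U, av δ (fun y => |f y|) n ^ p * av δ W n := by
      rw [Finset.mul_sum]
      refine Finset.sum_congr rfl fun m _ => ?_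
      ring
    rw [e2]
    have i1 : ∑ m ∈ U, |h m| ^ p * av δ W m ≤
        C1 * ∑ n ∈ U, av δ (fun y => |f y|) n ^ p * av δ W n := by
      refine (h1 U (av δ f)).trans ?_
      refine mul_le_mul_of_nonneg_left ?_ hC1
      refine Finset.sum_le_sum fun n _ => ?_
      exact mul_le_mul_of_nonneg_right (Real.rpow_le_rpow (abs_nonneg _) (havle n) hp0) (hpos n).le
    have i2 : ∑ m ∈ U, A m ^ p * av δ W m ≤
        C2 * ∑ n ∈ U, av δ (fun y => |f y|) n ^ p * av δ W n := h2 U _ hav0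
    have h4p : (0 : ℝ) ≤ 4 ^ p := by positivity
    have h2p : (0 : ℝ) ≤ 2 ^ p * δ := by positivity
    calc 2 ^ p * δ * (∑ m ∈ U, |h m| ^ p * av δ W m + 4 ^ p * ∑ m ∈ U, A m ^ p * av δ W m)
        ≤ 2 ^ p * δ * (C1 * ∑ n ∈ U, av δ (fun y => |f y|) n ^ p * av δ W n +
          4 ^ p * (C2 * ∑ n ∈ U, av δ (fun y => |f y|) n ^ p * av δ W n)) := by
          refine mul_le_mul_of_nonneg_left ?_ h2p
          exact add_le_add i1 (mul_le_mul_of_nonneg_left i2 h4p)
      _ = (2 ^ p * (C1 + 4 ^ p * C2)) *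
          (δ * ∑ n ∈ U, av δ (fun y => |f y|) n ^ p * av δ W n) := by ring
  refine (ENNReal.ofReal_le_ofReal hsum).trans ?_
  have hc0 : 0 ≤ 2 ^ p * (C1 + 4 ^ p * C2) := by positivity
  rw [ENNReal.ofReal_mul hc0, ENNReal.ofReal_mul hc0, mul_assoc]
  refine mul_le_mul' le_rfl ?_
  rw [ENNReal.ofReal_sum_of_nonneg (fun m _ => by
    have := (hpos m).le
    have := hav0 m
    positivity)]
  refine (Finset.sum_le_sum fun n _ => hN f hf n).trans ?_
  rw [← Finset.mul_sum]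
  refine mul_le_mul' le_rfl ?_
  have e3 : ∑ n ∈ U, ∫⁻ x in Set.Ico ((n : ℝ) * δ) (((n : ℝ) + 1) * δ),
      ENNReal.ofReal (|f x| ^ p * W x) =
      ∫⁻ x in ⋃ n ∈ U, cell δ n, ENNReal.ofReal (|f x| ^ p * W x) := by
    rw [lintegral_biUnion_finset (fun a _ b _ hab => cell_disj hδ hab)
      (fun n _ => cell_meas δ n)]
    rfl
  rw [e3]
  exact setLIntegral_le_lintegral _ _

/-- The bound for the truncated transform. -/
lemma trunc_bound {p : ℝ} {W : ℝ → ℝ} (hp : 1 < p) (hW : IsAp p W) {B : ENNReal} {δ : ℝ}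
    (hδ : 0 < δ)
    (hB : ∀ (f : ℝ → ℝ), Integrable f → ∀ (N : ℕ),
      (∀ x, x ∉ Set.Ico (-((N : ℝ) * δ)) ((N : ℝ) * δ) → f x = 0) →
      ∫⁻ x in Set.Ico (-((N : ℝ) * δ)) ((N : ℝ) * δ), ENNReal.ofReal (|truncH f δ x| ^ p * W x) ≤
      B * wInt p W f) {f : ℝ → ℝ} (hf : Integrable f) :
    ∫⁻ x, ENNReal.ofReal (|truncH f δ x| ^ p * W x) ≤ B * wInt p W f := by
  have hp0 : 0 < p := by linarith
  set S : ℕ → Set ℝ := fun N => Set.Ico (-((N : ℝ) * δ)) ((N : ℝ) * δ) with hS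
  have hSm : ∀ N, MeasurableSet (S N) := fun N => measurableSet_Ico
  set F : ℕ → ℝ → ℝ := fun N => (S N).indicator f with hF
  have hFi : ∀ N, Integrable (F N) := fun N => hf.indicator (hSm N)
  have hev : ∀ x : ℝ, ∀ᶠ N in atTop, x ∈ S N := by
    intro x
    obtain ⟨M, hM⟩ := exists_nat_gt (|x| / δ)
    filter_upwards [eventually_ge_atTop M] with N hN
    have h1 : |x| < N * δ := by
      rw [div_lt_iff₀ hδ] at hM
      have : (M : ℝ) ≤ N := by exact_mod_cast hN
      nlinarith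
    rw [abs_lt] at h1
    exact ⟨h1.1.le, h1.2⟩
  refine fatou (g := fun N => (S N).indicator
    (fun x => ENNReal.ofReal (|truncH (F N) δ x| ^ p * W x))) ?_ ?_ ?_
  · intro N
    refine Measurable.indicator ?_ (hSm N)
    exact (((truncH_measurable (hFi N) δ).abs.pow_const p).mul hW.weight.meas).ennreal_ofReal
  · intro x
    have ht : Tendsto (fun N => truncH (F N) δ x) atTop (𝓝 (truncH f δ x)) := by
      simp only [truncH_eq]
      refine tendsto_integral_of_dominated_convergence (fun y => |f y * ker δ (x - y)|) ?_ ?_ ?_ ?_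
      · intro N
        exact (int_ker (hFi N) hδ x).1
      · exact (int_ker hf hδ x).abs
      · intro N
        refine Eventually.of_forall fun y => ?_
        rw [Real.norm_eq_abs, abs_mul, abs_mul]
        refine mul_le_mul_of_nonneg_right ?_ (abs_nonneg _)
        by_cases hy : y ∈ S N
        · rw [hF]; simp only; rw [Set.indicator_of_mem hy]
        · rw [hF]; simp only; rw [Set.indicator_of_notMem hy]; simp
      · refine Eventually.of_forall fun y => ?_
        refine tendsto_const_nhds.congr' ?_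
        filter_upwards [hev y] with N hN
        rw [hF]; simp only; rw [Set.indicator_of_mem hN]
    have ht2 : Tendsto (fun N => ENNReal.ofReal (|truncH (F N) δ x| ^ p * W x)) atTop
        (𝓝 (ENNReal.ofReal (|truncH f δ x| ^ p * W x))) := by
      refine ENNReal.tendsto_ofReal ?_
      exact ((ht.abs).rpow_const (Or.inr hp0.le)).mul_const _
    refine ht2.congr' ?_
    filter_upwards [hev x] with N hN
    rw [Set.indicator_of_mem hN]
  · intro N
    rw [lintegral_indicator (hSm N)]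
    refine (hB (F N) (hFi N) N fun x hx => Set.indicator_of_notMem hx _).trans ?_
    refine mul_le_mul' le_rfl ?_
    unfold wInt
    refine lintegral_mono fun x => ?_
    apply ENNReal.ofReal_le_ofReal
    refine mul_le_mul_of_nonneg_right ?_ (hW.weight.nonneg x)
    refine Real.rpow_le_rpow (abs_nonneg _) ?_ hp0.le
    by_cases hy : x ∈ S N
    · rw [hF]; simp only; rw [Set.indicator_of_mem hy]
    · rw [hF]; simp only; rw [Set.indicator_of_notMem hy]; simp

/-- From the truncated transforms to the Hilbert transform. -/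
lemma hilbert_bound {p : ℝ} {W : ℝ → ℝ} (hp : 1 < p) (hW : IsAp p W) {f : ℝ → ℝ}
    (hf : Integrable f) {B : ENNReal}
    (hB : ∀ δ : ℝ, 0 < δ → ∫⁻ x, ENNReal.ofReal (|truncH f δ x| ^ p * W x) ≤ B) :
    wInt p W (hilbert f) ≤ B := by
  have hp0 : 0 < p := by linarith
  have hseq : Tendsto (fun n : ℕ => 1 / ((n : ℝ) + 1)) atTop (𝓝[>] 0) := by
    rw [tendsto_nhdsWithin_iff]
    exact ⟨tendsto_one_div_add_atTop_nhds_zero_nat, Eventually.of_forall fun n => by
      show (0 : ℝ) < _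
      positivity⟩
  unfold wInt
  set P : Set ℝ := {x | ∃ l, HasPV f x l} with hP
  have hPm : MeasurableSet P := measurableSet_hasPV hf
  refine fatou (g := fun n => P.indicator
    (fun x => ENNReal.ofReal (|(1 / Real.pi) * truncH f (1 / ((n : ℝ) + 1)) x| ^ p * W x))) ?_ ?_ ?_
  · intro n
    refine Measurable.indicator ?_ hPm
    exact ((((truncH_measurable hf _).const_mul _).abs.pow_const p).mul
      hW.weight.meas).ennreal_ofReal
  · intro x
    by_cases h : x ∈ P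
    · simp only [Set.indicator_of_mem h]
      obtain ⟨l, hl⟩ := h
      rw [hilbert_eq hl]
      refine ENNReal.tendsto_ofReal ?_
      exact ((((hl.comp hseq).const_mul _).abs).rpow_const (Or.inr hp0.le)).mul_const _
    · simp only [Set.indicator_of_notMem h]
      rw [hilbert_of_not h]
      simp [Real.zero_rpow hp0.ne']
  · intro n
    rw [lintegral_indicator hPm]
    refine (setLIntegral_le_lintegral _ _).trans ?_
    refine (lintegral_mono fun x => ?_).trans (hB (1 / ((n : ℝ) + 1)) (by positivity))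
    apply ENNReal.ofReal_le_ofReal
    refine mul_le_mul_of_nonneg_right ?_ (hW.weight.nonneg x)
    refine Real.rpow_le_rpow (abs_nonneg _) ?_ hp0.le
    rw [abs_mul]
    have h1 : |1 / Real.pi| ≤ 1 := by
      rw [abs_of_pos (by positivity), div_le_one Real.pi_pos]
      linarith [Real.pi_gt_three]
    calc |1 / Real.pi| * |truncH f (1 / ((n : ℝ) + 1)) x|
        ≤ 1 * |truncH f (1 / ((n : ℝ) + 1)) x| := mul_le_mul_of_nonneg_right h1 (abs_nonneg _)
      _ = _ := one_mul _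

theorem hmw (h1 : DOp) (h2 : DAvg) (h3 : AvAp) (h4 : AvNorm) (h5 : Comp) : HMW := by
  intro p W hp hW
  obtain ⟨K1, hK1, hA⟩ := h3 p W hp hW
  obtain ⟨K2, hK2, hN⟩ := h4 p W hp hW
  obtain ⟨C1, hC10, hC1⟩ := h1 p K1 hp hK1
  obtain ⟨C2, hC20, hC2⟩ := h2 p K1 hp hK1
  have hp0 : 0 < p := by linarith
  refine ⟨2 ^ p * (C1 + 4 ^ p * C2) * K2, fun f hf => ?_⟩
  refine hilbert_bound hp hW hf fun δ hδ => ?_
  refine trunc_bound hp hW hδ ?_ hf
  intro f hf N hs
  obtain ⟨hpos, hD⟩ := hA δ hδ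
  exact window hp hW hC10 hC20 hδ hpos (hN δ hδ) (fun U g => hC1 (av δ W) hpos hD U g)
    (fun U g hg => hC2 (av δ W) hpos hD U g hg) h5 hf N hs

end Pool.Agent.V8H98.AP
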