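import Pool.Agent.V8H55.AP.Stm
import Pool.Agent.V8H55.HW.Basic

/-!
# Comparison of the truncated Hilbert transform with the discrete one
-/

set_option autoImplicit false

open MeasureTheory Finset

namespace Pool.Agent.V8H98.AP

open Pool.Agent.V8H55.HW Pool.Agent.V8H55.AP

/-- The cells. -/
def cell (δ : ℝ) (n : ℤ) : Set ℝ := Set.Ico ((n : ℝ) * δ) (((n : ℝ) + 1) * δ)

lemma cell_meas (δ : ℝ) (n : ℤ) : MeasurableSet (cell δ n) := measurableSet_Ico

lemma mem_cell_iff {δ : ℝ} (hδ : 0 < δ) (n : ℤ) (y : ℝ) : y ∈ cell δ n ↔ ⌊y / δ⌋ = n := by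
  unfold cell
  rw [Int.floor_eq_iff, Set.mem_Ico, le_div_iff₀ hδ, div_lt_iff₀ hδ]

lemma cell_disj {δ : ℝ} (hδ : 0 < δ) {m n : ℤ} (h : m ≠ n) : Disjoint (cell δ m) (cell δ n) := by
  rw [Set.disjoint_left]
  intro y h1 h2
  rw [mem_cell_iff hδ] at h1 h2
  exact h (h1.symm.trans h2)

lemma mem_Ico_iff {δ : ℝ} (hδ : 0 < δ) (N : ℕ) (y : ℝ) :
    y ∈ Set.Ico (-((N : ℝ) * δ)) ((N : ℝ) * δ) ↔ ⌊y / δ⌋ ∈ Finset.Ico (-(N : ℤ)) N := by
  rw [Finset.mem_Ico, Int.le_floor, Int.floor_lt, Set.mem_Ico, le_div_iff₀ hδ, div_lt_iff₀ hδ]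
  push_cast
  rw [neg_mul]

lemma iUnion_cell {δ : ℝ} (hδ : 0 < δ) (N : ℕ) :
    (⋃ n ∈ Finset.Ico (-(N : ℤ)) N, cell δ n) = Set.Ico (-((N : ℝ) * δ)) ((N : ℝ) * δ) := by
  ext y
  rw [mem_Ico_iff hδ]
  simp only [Set.mem_iUnion, mem_cell_iff hδ]
  constructor
  · rintro ⟨n, hn, h⟩
    rw [h]
    exact hn
  · intro h
    exact ⟨_, h, rfl⟩

lemma av_eq {δ : ℝ} (hδ : 0 < δ) (F : ℝ → ℝ) (n : ℤ) : av δ F n = δ⁻¹ * ∫ x in cell δ n, F x := by
  unfold av cell
  rw [intervalIntegral.integral_of_le (by nlinarith), integral_Ico_eq_integral_Ioc]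

/-- The kernel comparison. -/
lemma ker_diff {δ : ℝ} (hδ : 0 < δ) {m n : ℤ} {x y : ℝ} (hx : x ∈ cell δ m) (hy : y ∈ cell δ n) :
    |ker δ (x - y) - δ⁻¹ * ((m - n : ℤ) : ℝ)⁻¹| ≤ δ⁻¹ * (4 / (1 + ((m - n : ℤ) : ℝ) ^ 2)) := by
  obtain ⟨hx1, hx2⟩ := hx
  obtain ⟨hy1, hy2⟩ := hy
  have hd : (0 : ℝ) < δ⁻¹ := inv_pos.mpr hδ
  set k : ℤ := m - n with hk
  have hkr : (k : ℝ) = (m : ℝ) - n := by rw [hk]; push_cast; ring
  set t : ℝ := x - y with ht
  have h1 : t < ((k : ℝ) + 1) * δ := by rw [hkr, ht]; nlinarith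
  have h2 : ((k : ℝ) - 1) * δ < t := by rw [hkr, ht]; nlinarith
  rcases lt_trichotomy k 0 with hneg | h0 | hpos
  · rcases eq_or_lt_of_le (show k ≤ -1 by omega) with he | hlt
    · -- k = -1
      have hb : |ker δ t| ≤ δ⁻¹ := by
        have := ker_abs_le hδ t
        rwa [one_div] at this
      rw [he]
      have : |ker δ t - δ⁻¹ * (((-1 : ℤ) : ℝ))⁻¹| ≤ |ker δ t| + δ⁻¹ := by
        refine (abs_sub _ _).trans ?_
        rw [abs_mul, abs_of_pos hd]
        norm_num
      refine this.trans ?_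
      norm_num
      linarith
    · have hk2 : (k : ℝ) ≤ -2 := by
        have : k ≤ -2 := by omega
        exact_mod_cast this
      have ht0 : t < -δ := by nlinarith
      have hta : δ < |t| := by rw [abs_of_neg (by linarith)]; linarith
      have e : ker δ t = 1 / t := by unfold ker; rw [if_pos hta]
      rw [e]
      have htne : t ≠ 0 := by linarith
      have hkne : (k : ℝ) ≠ 0 := by linarith
      have e2 : 1 / t - δ⁻¹ * (k : ℝ)⁻¹ = (δ * k - t) / (t * (δ * k)) := by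
        field_simp
      rw [e2, abs_div]
      have hden : 0 < t * (δ * k) := by
        apply mul_pos_of_neg_of_neg (by linarith)
        exact mul_neg_of_pos_of_neg hδ (by linarith)
      rw [abs_of_pos hden]
      have hnum : |δ * k - t| ≤ δ := by rw [abs_le]; constructor <;> nlinarith
      rw [div_le_iff₀ hden]
      refine hnum.trans ?_
      have h3 : (((k : ℝ) + 1) * δ) * (δ * k) ≤ t * (δ * k) := by
        apply mul_le_mul_of_nonpos_right h1.le
        have := mul_neg_of_pos_of_neg hδ (show (k : ℝ) < 0 by linarith)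
        linarith
      have h4 : δ⁻¹ * (4 / (1 + (k : ℝ) ^ 2)) * ((((k : ℝ) + 1) * δ) * (δ * k)) ≤
          δ⁻¹ * (4 / (1 + (k : ℝ) ^ 2)) * (t * (δ * k)) := by
        apply mul_le_mul_of_nonneg_left h3 (by positivity)
      refine le_trans ?_ h4
      have e3 : δ⁻¹ * (4 / (1 + (k : ℝ) ^ 2)) * ((((k : ℝ) + 1) * δ) * (δ * k)) =
          δ * (4 * (k * (k + 1)) / (1 + (k : ℝ) ^ 2)) := by
        field_simp
      rw [e3]
      have : 1 ≤ 4 * ((k : ℝ) * (k + 1)) / (1 + (k : ℝ) ^ 2) := by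
        rw [le_div_iff₀ (by positivity)]
        nlinarith
      nlinarith
  · rw [h0] at h1 h2 ⊢
    have hta : ¬ δ < |t| := by
      push_cast at h1 h2
      rw [not_lt, abs_le]
      constructor <;> nlinarith
    have e : ker δ t = 0 := by unfold ker; rw [if_neg hta]
    rw [e]
    norm_num
    positivity
  · rcases eq_or_lt_of_le (show 1 ≤ k by omega) with he | hlt
    · -- k = 1
      have hb : |ker δ t| ≤ δ⁻¹ := by
        have := ker_abs_le hδ t
        rwa [one_div] at this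
      rw [← he]
      have : |ker δ t - δ⁻¹ * (((1 : ℤ) : ℝ))⁻¹| ≤ |ker δ t| + δ⁻¹ := by
        refine (abs_sub _ _).trans ?_
        rw [abs_mul, abs_of_pos hd]
        norm_num
      refine this.trans ?_
      norm_num
      linarith
    · have hk2 : (2 : ℝ) ≤ k := by
        have : 2 ≤ k := by omega
        exact_mod_cast this
      have ht0 : δ < t := by nlinarith
      have hta : δ < |t| := by rw [abs_of_pos (by linarith)]; linarith
      have e : ker δ t = 1 / t := by unfold ker; rw [if_pos hta]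
      rw [e]
      have htne : t ≠ 0 := by linarith
      have hkne : (k : ℝ) ≠ 0 := by linarith
      have e2 : 1 / t - δ⁻¹ * (k : ℝ)⁻¹ = (δ * k - t) / (t * (δ * k)) := by
        field_simp
      rw [e2, abs_div]
      have hkp : (0 : ℝ) < k := by linarith
      have htp : 0 < t := by linarith
      have hden : 0 < t * (δ * k) := by positivity
      rw [abs_of_pos hden]
      have hnum : |δ * k - t| ≤ δ := by rw [abs_le]; constructor <;> nlinarith
      rw [div_le_iff₀ hden]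
      refine hnum.trans ?_
      have h3 : (((k : ℝ) - 1) * δ) * (δ * k) ≤ t * (δ * k) := by
        apply mul_le_mul_of_nonneg_right h2.le
        positivity
      have h4 : δ⁻¹ * (4 / (1 + (k : ℝ) ^ 2)) * ((((k : ℝ) - 1) * δ) * (δ * k)) ≤
          δ⁻¹ * (4 / (1 + (k : ℝ) ^ 2)) * (t * (δ * k)) := by
        apply mul_le_mul_of_nonneg_left h3 (by positivity)
      refine le_trans ?_ h4
      have e3 : δ⁻¹ * (4 / (1 + (k : ℝ) ^ 2)) * ((((k : ℝ) - 1) * δ) * (δ * k)) =
          δ * (4 * (k * (k - 1)) / (1 + (k : ℝ) ^ 2)) := by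
        field_simp
      rw [e3]
      have : 1 ≤ 4 * ((k : ℝ) * (k - 1)) / (1 + (k : ℝ) ^ 2) := by
        rw [le_div_iff₀ (by positivity)]
        nlinarith
      nlinarith

theorem comp : Comp := by
  intro f δ N hf hδ hsupp m x hx
  have hx' : x ∈ cell δ m := hx
  have hK := int_ker hf hδ x
  have e1 : truncH f δ x = ∑ n ∈ Finset.Ico (-(N : ℤ)) N, ∫ y in cell δ n, f y * ker δ (x - y) := by
    rw [truncH_eq, ← integral_biUnion_finset _ (fun n _ => cell_meas δ n)
      (fun a _ b _ hab => cell_disj hδ hab) (fun n _ => hK.integrableOn), iUnion_cell hδ]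
    symm
    apply setIntegral_eq_integral_of_forall_compl_eq_zero
    intro y hy
    rw [hsupp y hy, zero_mul]
  have e2 : ∀ n : ℤ, av δ f n * ((m - n : ℤ) : ℝ)⁻¹ =
      ∫ y in cell δ n, f y * (δ⁻¹ * ((m - n : ℤ) : ℝ)⁻¹) := by
    intro n
    rw [av_eq hδ, integral_mul_const]
    ring
  rw [e1, ← Finset.sum_sub_distrib, Finset.mul_sum]
  refine (Finset.abs_sum_le_sum_abs _ _).trans (Finset.sum_le_sum fun n _ => ?_)
  rw [e2, ← integral_sub hK.integrableOn (hf.mul_const _).integrableOn]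
  have e3 : 4 * (av δ (fun y => |f y|) n / (1 + ((m - n : ℤ) : ℝ) ^ 2)) =
      ∫ y in cell δ n, |f y| * (δ⁻¹ * (4 / (1 + ((m - n : ℤ) : ℝ) ^ 2))) := by
    rw [av_eq hδ, integral_mul_const]
    ring
  rw [e3, ← Real.norm_eq_abs]
  refine norm_integral_le_of_norm_le (hf.abs.mul_const _).integrableOn ?_
  rw [ae_restrict_iff' (cell_meas δ n)]
  refine Filter.Eventually.of_forall fun y hy => ?_
  rw [← mul_sub, norm_mul, Real.norm_eq_abs, Real.norm_eq_abs]
  exact mul_le_mul_of_nonneg_left (ker_diff hδ hx' hy) (abs_nonneg _)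

end Pool.Agent.V8H98.AP
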